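import Mathlib

open Set Filter

universe u v

namespace Pool.Agent.Results.MP_bddfa7_gt.SoBoundedProd

/-- A ballean on `X`: a family of subsets of `X × X` (the entourages) that contains the diagonal,
is closed under subsets, finite unions, inverses and compositions, and is connected. -/
structure Ballean (X : Type u) where
  /-- the family of entourages -/
  ent : Set (Set (X × X))
  diag_mem : {p : X × X | p.1 = p.2} ∈ ent
  subset_mem : ∀ E ∈ ent, ∀ F, F ⊆ E → F ∈ ent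
  union_mem : ∀ E ∈ ent, ∀ F ∈ ent, E ∪ F ∈ ent
  inv_mem : ∀ E ∈ ent, {p : X × X | (p.2, p.1) ∈ E} ∈ ent
  comp_mem : ∀ E ∈ ent, ∀ F ∈ ent,
    {p : X × X | ∃ z, (p.1, z) ∈ E ∧ (z, p.2) ∈ F} ∈ ent
  connected : ∀ x y : X, ∃ E ∈ ent, (x, y) ∈ E

/-- The ball `E[x] = {y | (x, y) ∈ E}`. -/
def ball {X : Type u} (E : Set (X × X)) (x : X) : Set X := {y | (x, y) ∈ E}

/-- `B` is bounded if `B ⊆ E[x]` for some entourage `E` and some point `x`. -/
def Ballean.Bdd {X : Type u} (𝓧 : Ballean X) (B : Set X) : Prop :=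
  ∃ E ∈ 𝓧.ent, ∃ x : X, B ⊆ ball E x

/-- `f : X → ℝ` is slowly oscillating if for every entourage `E` and every `ε > 0` there is a
bounded set `B` with `diam f(E[x]) < ε` for all `x ∉ B`. -/
def Ballean.SlowlyOsc {X : Type u} (𝓧 : Ballean X) (f : X → ℝ) : Prop :=
  ∀ E ∈ 𝓧.ent, ∀ ε : ℝ, 0 < ε → ∃ B : Set X, 𝓧.Bdd B ∧
    ∀ x, x ∉ B → Metric.ediam (f '' ball E x) < ENNReal.ofReal ε

/-- `X` is so-bounded if every slowly oscillating `f : X → ℝ` is bounded on the complement of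
some bounded set. -/
def Ballean.SoBounded {X : Type u} (𝓧 : Ballean X) : Prop :=
  ∀ f : X → ℝ, 𝓧.SlowlyOsc f → ∃ B : Set X, 𝓧.Bdd B ∧ ∃ M : ℝ, ∀ x, x ∉ B → |f x| ≤ M

/-- The basic entourage `{((x, y), (x', y')) | (x, x') ∈ E, (y, y') ∈ F}` on `X × Y`. -/
def tensor {X : Type u} {Y : Type v} (E : Set (X × X)) (F : Set (Y × Y)) :
    Set ((X × Y) × (X × Y)) :=
  {p | (p.1.1, p.2.1) ∈ E ∧ (p.1.2, p.2.2) ∈ F}

/-- The product ballean: its entourages are the subsets of the sets `tensor E F` with `E`, `F`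
entourages of the factors (this is the coarse structure generated by the sets `tensor E F`,
see `prod_least`). -/
def Ballean.prod {X : Type u} {Y : Type v} (𝓧 : Ballean X) (𝓨 : Ballean Y) :
    Ballean (X × Y) where
  ent := {W | ∃ E ∈ 𝓧.ent, ∃ F ∈ 𝓨.ent, W ⊆ tensor E F}
  diag_mem := by
    refine ⟨_, 𝓧.diag_mem, _, 𝓨.diag_mem, ?_⟩
    rintro ⟨⟨x, y⟩, ⟨x', y'⟩⟩ h
    simp only [mem_ofPred_eq, Prod.mk.injEq] at h
    exact h
  subset_mem := by
    rintro W ⟨E, hE, F, hF, hW⟩ V hV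
    exact ⟨E, hE, F, hF, hV.trans hW⟩
  union_mem := by
    rintro W ⟨E, hE, F, hF, hW⟩ W' ⟨E', hE', F', hF', hW'⟩
    refine ⟨_, 𝓧.union_mem E hE E' hE', _, 𝓨.union_mem F hF F' hF', ?_⟩
    rintro p (hp | hp)
    · exact ⟨Or.inl (hW hp).1, Or.inl (hW hp).2⟩
    · exact ⟨Or.inr (hW' hp).1, Or.inr (hW' hp).2⟩
  inv_mem := by
    rintro W ⟨E, hE, F, hF, hW⟩
    refine ⟨_, 𝓧.inv_mem E hE, _, 𝓨.inv_mem F hF, ?_⟩
    intro p hp
    exact ⟨(hW hp).1, (hW hp).2⟩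
  comp_mem := by
    rintro W ⟨E, hE, F, hF, hW⟩ W' ⟨E', hE', F', hF', hW'⟩
    refine ⟨_, 𝓧.comp_mem E hE E' hE', _, 𝓨.comp_mem F hF F' hF', ?_⟩
    rintro p ⟨z, hz, hz'⟩
    exact ⟨⟨z.1, (hW hz).1, (hW' hz').1⟩, ⟨z.2, (hW hz).2, (hW' hz').2⟩⟩
  connected := by
    rintro ⟨x, y⟩ ⟨x', y'⟩
    obtain ⟨E, hE, h⟩ := 𝓧.connected x x'
    obtain ⟨F, hF, h'⟩ := 𝓨.connected y y'
    exact ⟨tensor E F, ⟨E, hE, F, hF, Subset.rfl⟩, h, h'⟩

/-- `prod` is the coarse structure generated by the sets `tensor E F`: it contains all of them,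
and is contained in every ballean structure that does. -/
theorem prod_least {X : Type u} {Y : Type v} (𝓧 : Ballean X) (𝓨 : Ballean Y) :
    (∀ E ∈ 𝓧.ent, ∀ F ∈ 𝓨.ent, tensor E F ∈ (𝓧.prod 𝓨).ent) ∧
    ∀ 𝓩 : Ballean (X × Y), (∀ E ∈ 𝓧.ent, ∀ F ∈ 𝓨.ent, tensor E F ∈ 𝓩.ent) →
      (𝓧.prod 𝓨).ent ⊆ 𝓩.ent := by
  refine ⟨fun E hE F hF => ⟨E, hE, F, hF, Subset.rfl⟩, ?_⟩
  rintro 𝓩 h W ⟨E, hE, F, hF, hW⟩
  exact 𝓩.subset_mem _ (h E hE F hF) W hW


/-- every natural-valued function is eventually bounded along the filter -/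
def FBdd {D : Type*} (F : Filter D) : Prop := ∀ G : D → ℕ, ∃ n, ∀ᶠ a in F, G a ≤ n

theorem FBdd.countable_inter {D : Type*} {F : Filter D} (hF : FBdd F) {s : ℕ → Set D}
    (hs : ∀ j, s j ∈ F) : (⋂ j, s j) ∈ F := by
  classical
  obtain ⟨n, hn⟩ := hF (fun a => if h : ∃ j, a ∉ s j then Nat.find h else 0)
  have h1 : ∀ᶠ a in F, ∀ j ∈ Finset.range (n + 1), a ∈ s j := by
    rw [Finset.eventually_all]
    intro j _
    exact hs j
  filter_upwards [hn, h1] with a ha h2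
  by_contra hcon
  have h : ∃ j, a ∉ s j := by
    simpa [Set.mem_iInter] using hcon
  rw [dif_pos h] at ha
  have := Nat.find_spec h
  exact this (h2 _ (Finset.mem_range.2 (Nat.lt_succ_of_le ha)))

theorem FBdd.mono {D : Type*} {F G : Filter D} (hF : FBdd F) (h : G ≤ F) : FBdd G := by
  intro g
  obtain ⟨n, hn⟩ := hF g
  exact ⟨n, h hn⟩

/-- existence of an atom below a positive set -/
theorem FBdd.exists_atom {D : Type*} {F : Filter D} (hF : FBdd F) {P : Set D}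
    (hP : ∃ᶠ a in F, a ∈ P) :
    ∃ P₁ ⊆ P, ∃ U : Ultrafilter D, (U : Filter D) = F ⊓ 𝓟 P₁ := by
  classical
  -- positive subsets of `P`
  by_contra hno
  push Not at hno
  -- each positive subset splits
  have key : ∀ Q : {Q : Set D // Q ⊆ P ∧ ∃ᶠ a in F, a ∈ Q},
      ∃ Q' : {Q : Set D // Q ⊆ P ∧ ∃ᶠ a in F, a ∈ Q}, Q'.1 ⊆ Q.1 ∧
        ∃ᶠ a in F, a ∈ Q.1 \ Q'.1 := by
    rintro ⟨Q, hQP, hQ⟩
    by_contra hcon
    push Not at hcon
    have hne : (F ⊓ 𝓟 Q).NeBot := by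
      rw [← frequently_mem_iff_neBot]; exact hQ
    have hcompl : ∀ s : Set D, sᶜ ∉ F ⊓ 𝓟 Q ↔ s ∈ F ⊓ 𝓟 Q := by
      intro s
      constructor
      · intro hs
        have h1 : ∃ᶠ a in F, a ∈ Q ∩ s := by
          intro hev
          apply hs
          rw [mem_inf_principal]
          filter_upwards [hev] with a ha hq
          intro has
          exact ha ⟨hq, has⟩
        have h2 := hcon ⟨Q ∩ s, inter_subset_left.trans hQP, h1⟩ inter_subset_left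
        rw [mem_inf_principal]
        filter_upwards [h2] with a ha hq
        by_contra has
        exact ha ⟨hq, fun h => has h.2⟩
      · intro hs hs'
        exact (hne.ne) (empty_mem_iff_bot.1 (by simpa using inter_mem hs hs'))
    exact hno Q hQP (Ultrafilter.ofComplNotMemIff (F ⊓ 𝓟 Q) hcompl) rfl
  choose next hnext1 hnext2 using key
  let seq : ℕ → {Q : Set D // Q ⊆ P ∧ ∃ᶠ a in F, a ∈ Q} := fun n =>
    Nat.rec ⟨P, Subset.rfl, hP⟩ (fun _ Q => next Q) n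
  have hseq : ∀ n, seq (n + 1) = next (seq n) := fun n => rfl
  have hanti : ∀ m n, m ≤ n → (seq n).1 ⊆ (seq m).1 := by
    intro m n hmn
    induction hmn with
    | refl => exact Subset.rfl
    | step h ih => exact (hnext1 _).trans ih
  obtain ⟨N, hN⟩ := hF (fun a => if h : ∃ n, a ∈ (seq n).1 \ (seq (n + 1)).1 then Nat.find h else 0)
  have h3 : ∃ᶠ a in F, a ∈ (seq (N + 1)).1 \ (seq (N + 1 + 1)).1 := hnext2 (seq (N + 1))
  obtain ⟨a, ha1, ha2⟩ := (h3.and_eventually hN).exists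
  have h : ∃ n, a ∈ (seq n).1 \ (seq (n + 1)).1 := ⟨N + 1, ha1⟩
  rw [dif_pos h] at ha2
  have h4 := Nat.find_spec h
  exact h4.2 (hanti (Nat.find h + 1) (N + 1) (by omega) ha1.1)

/-- Countably complete ultrafilters below a bounded filter: not infinitely many. -/
theorem FBdd.exists_eq {D : Type*} {F : Filter D} (hF : FBdd F) (V : ℕ → Ultrafilter D)
    (hV : ∀ n, (V n : Filter D) ≤ F) : ∃ n m, n ≠ m ∧ V n = V m := by
  classical
  by_contra hcon
  push Not at hcon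
  have hsep : ∀ n m, ∃ A : Set D, n ≠ m → A ∈ V n ∧ Aᶜ ∈ V m := by
    intro n m
    by_cases hnm : n = m
    · exact ⟨∅, fun h => absurd hnm h⟩
    · have hne := hcon n m hnm
      by_contra hno
      push Not at hno
      apply hne
      apply Ultrafilter.coe_le_coe.1
      intro s hs
      by_contra hs'
      have h1 := hno sᶜ
      have h2 : sᶜ ∈ V n := Ultrafilter.compl_mem_iff_notMem.2 hs'
      exact (h1.2 h2) (by simpa using hs)
  choose A hA using hsep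
  let B : ℕ → Set D := fun n => ⋂ m, {a | m ≠ n → a ∈ A n m ∩ (A m n)ᶜ}
  have hB : ∀ n, B n ∈ V n := by
    intro n
    apply (hF.mono (hV n)).countable_inter
    intro m
    by_cases hmn : m = n
    · simp [hmn]
    · have h1 := (hA n m (Ne.symm hmn)).1
      have h2 := (hA m n hmn).2
      filter_upwards [h1, h2] with a h3 h4 _
      exact ⟨h3, h4⟩
  have hdisj : ∀ n m a, a ∈ B n → a ∈ B m → n = m := by
    intro n m a hn hm
    by_contra hne
    have h1 := mem_iInter.1 hn m (Ne.symm hne)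
    have h2 := mem_iInter.1 hm n hne
    exact h1.2 h2.1
  obtain ⟨N, hN⟩ := hF (fun a => if h : ∃ n, a ∈ B n then Nat.find h else 0)
  have h1 : ∀ᶠ a in (V (N + 1) : Filter D), a ∈ B (N + 1) := hB (N + 1)
  obtain ⟨a, ha1, ha2⟩ := (h1.and ((hV (N + 1)) hN)).exists
  have h : ∃ n, a ∈ B n := ⟨_, ha1⟩
  change (if h : ∃ n, a ∈ B n then Nat.find h else 0) ≤ N at ha2
  rw [dif_pos h] at ha2
  have h4 := hdisj _ _ a (Nat.find_spec h) ha1
  omega

/-- the rigidity argument -/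
theorem rigidity {D D' : Type*} (U : Ultrafilter D) (S : Set D) (hS : S ∈ U) (u v : D → D')
    (hu : InjOn u S) (hv : InjOn v S) (huv : ∀ a ∈ S, u a ≠ v a)
    (hUV : U.map u = U.map v) : False := by
  classical
  -- transfer
  have T1 : ∀ A ⊆ S, A ∈ U → {a' | a' ∈ S ∧ ∃ a ∈ A, v a' = u a} ∈ U := by
    intro A hAS hA
    have h1 : u '' A ∈ U.map u := by
      rw [Ultrafilter.mem_map]
      exact mem_of_superset hA (subset_preimage_image u A)
    rw [hUV, Ultrafilter.mem_map] at h1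
    filter_upwards [hS, h1] with a' ha' h2
    obtain ⟨a, ha, hav⟩ := h2
    exact ⟨ha', a, ha, hav.symm⟩
  have T2 : ∀ A ⊆ S, A ∈ U → {a | a ∈ S ∧ ∃ a' ∈ A, u a = v a'} ∈ U := by
    intro A hAS hA
    have h1 : v '' A ∈ U.map v := by
      rw [Ultrafilter.mem_map]
      exact mem_of_superset hA (subset_preimage_image v A)
    rw [← hUV, Ultrafilter.mem_map] at h1
    filter_upwards [hS, h1] with a' ha' h2
    obtain ⟨a, ha, hav⟩ := h2
    exact ⟨ha', a, ha, hav.symm⟩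
  -- maximal good set
  obtain ⟨Q, hQ⟩ := zorn_subset {Q : Set D | Q ⊆ S ∧ ∀ a ∈ Q, ∀ a' ∈ Q, u a ≠ v a'} (by
    intro c hc hchain
    refine ⟨⋃₀ c, ⟨?_, ?_⟩, fun s hs => subset_sUnion_of_mem hs⟩
    · exact sUnion_subset fun s hs => (hc hs).1
    · rintro a ⟨s, hs, has⟩ a' ⟨t, ht, hat⟩
      rcases hchain.total hs ht with h | h
      · exact (hc ht).2 a (h has) a' hat
      · exact (hc hs).2 a has a' (h hat))
  have hQS : Q ⊆ S := hQ.prop.1
  have hQg := hQ.prop.2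
  have hQU : Q ∉ U := by
    intro hQU
    have h1 := T1 Q hQS hQU
    obtain ⟨a', ha', h2⟩ := (U.neBot.nonempty_of_mem (inter_mem hQU h1))
    obtain ⟨_, a, ha, hva⟩ := h2
    exact hQg a ha a' ha' hva.symm
  have hcov : S ⊆ Q ∪ ({a' | a' ∈ S ∧ ∃ a ∈ Q, v a' = u a} ∪ {a | a ∈ S ∧ ∃ a' ∈ Q, u a = v a'}) := by
    intro a ha
    by_contra hno
    simp only [mem_union, mem_ofPred_eq, not_or, not_and, not_exists] at hno
    obtain ⟨h1, h2, h3⟩ := hno
    have hmax : insert a Q ∈ {Q : Set D | Q ⊆ S ∧ ∀ a ∈ Q, ∀ a' ∈ Q, u a ≠ v a'} := by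
      refine ⟨insert_subset ha hQS, ?_⟩
      intro x hx y hy
      rcases mem_insert_iff.1 hx with hxa | hxQ
      · rcases mem_insert_iff.1 hy with hya | hyQ
        · rw [hxa, hya]; exact huv _ ha
        · rw [hxa]; exact h3 ha y hyQ
      · rcases mem_insert_iff.1 hy with hya | hyQ
        · rw [hya]; exact fun h => h2 ha x hxQ h.symm
        · exact hQg x hxQ y hyQ
    have := hQ.le_of_ge hmax (subset_insert a Q)
    exact h1 (this (mem_insert a Q))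
  have h := mem_of_superset hS hcov
  rcases Ultrafilter.union_mem_iff.1 h with h | h
  · exact hQU h
  rcases Ultrafilter.union_mem_iff.1 h with h | h
  · apply hQU
    have h2 := T2 _ (fun a ha => ha.1) h
    filter_upwards [h2] with a ha
    obtain ⟨haS, a', ⟨ha'S, a1, ha1, h4⟩, h3⟩ := ha
    have : a = a1 := hu haS (hQS ha1) (h3.trans h4)
    rw [this]; exact ha1
  · apply hQU
    have h2 := T1 _ (fun a ha => ha.1) h
    filter_upwards [h2] with a ha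
    obtain ⟨haS, a', ⟨ha'S, a1, ha1, h4⟩, h3⟩ := ha
    have : a = a1 := hv haS (hQS ha1) (h3.trans h4)
    rw [this]; exact ha1

/-- combinatorial core -/
theorem core {D D' : Type*} (F : Filter D) (F' : Filter D') (hF : FBdd F) (hF' : FBdd F')
    (g : D → D' → ℕ)
    (H1 : ∀ S : Set D, Sᶜ ∈ F → {b | ∃ a ∈ S, 0 < g a b}ᶜ ∈ F')
    (H2 : ∀ T : Set D', Tᶜ ∈ F' → {a | ∃ b ∈ T, 0 < g a b}ᶜ ∈ F) :
    ∃ n, ∀ᶠ a in F, ∀ b, g a b ≤ n := by
  classical
  by_contra hcon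
  push Not at hcon
  -- positive set of unbounded points
  have hP : ∃ᶠ a in F, a ∈ {a | ∀ n, ∃ b, n < g a b} := by
    intro hev
    obtain ⟨n, hn⟩ := hF (fun a => if h : ∃ n, ∀ b, g a b ≤ n then Nat.find h else 0)
    have h1 := hcon n
    obtain ⟨a, ⟨b, hb⟩, ha1, ha2⟩ := (h1.and_eventually (hn.and hev)).exists
    have h : ∃ n, ∀ b, g a b ≤ n := by
      simpa using ha2
    rw [dif_pos h] at ha1
    have := Nat.find_spec h b
    omega
  obtain ⟨P₁, hP₁, U, hU⟩ := hF.exists_atom hP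
  have hP₁U : P₁ ∈ U := by
    have : P₁ ∈ F ⊓ 𝓟 P₁ := mem_inf_of_right (mem_principal_self P₁)
    rw [← hU] at this; exact this
  have hUF : (U : Filter D) ≤ F := by rw [hU]; exact inf_le_left
  -- the sequence of points
  have hseq : ∀ a, ∃ y : ℕ → D', a ∈ P₁ → (∀ n, 0 < g a (y n)) ∧
      StrictMono (fun n => g a (y n)) := by
    intro a
    by_cases ha : a ∈ P₁
    · have h := hP₁ ha
      choose c hc using h
      refine ⟨fun n => Nat.rec (c 0) (fun _ b => c (g a b)) n, fun _ => ⟨?_, ?_⟩⟩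
      · intro n
        cases n with
        | zero => exact hc 0
        | succ n => exact lt_of_le_of_lt (Nat.zero_le _) (hc _)
      · apply strictMono_nat_of_lt_succ
        intro n
        exact hc _
    · have h := hP.exists
      obtain ⟨a0, ha0⟩ := h
      obtain ⟨b, _⟩ := ha0 0
      exact ⟨fun _ => b, fun h => absurd h ha⟩
  choose y hy using hseq
  have hVF : ∀ n, ((U.map (fun a => y a n) : Ultrafilter D') : Filter D') ≤ F' := by
    intro n W hW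
    have h1 := H2 Wᶜ (by simpa using hW)
    have h2 := hUF h1
    change (fun a => y a n) ⁻¹' W ∈ (U : Filter D)
    filter_upwards [h2, hP₁U] with a ha haP
    by_contra hno
    exact ha ⟨y a n, hno, (hy a haP).1 n⟩
  obtain ⟨n, m, hnm, hVV⟩ := hF'.exists_eq _ hVF
  have hinj : ∀ n, ∃ S ⊆ P₁, S ∈ U ∧ InjOn (fun a => y a n) S := by
    intro n
    obtain ⟨S, hSP, hS⟩ := exists_subset_bijOn P₁ (fun a => y a n)
    refine ⟨S, hSP, ?_, hS.injOn⟩
    by_contra hSU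
    have h1 : Sᶜ ∈ U := Ultrafilter.compl_mem_iff_notMem.2 hSU
    have h2 : Sᶜ ∈ F ⊓ 𝓟 P₁ := by rw [← hU]; exact h1
    rw [mem_inf_principal] at h2
    have h3 : Sᶜ ∈ F := by
      filter_upwards [h2] with a ha haS
      exact ha (hSP haS) haS
    have h4 := hVF n (H1 S h3)
    have h5 : ∀ᶠ a in (U : Filter D), y a n ∈ {b | ∃ a ∈ S, 0 < g a b}ᶜ := h4
    obtain ⟨a, ha1, ha2⟩ := (h5.and hP₁U).exists
    have h6 : y a n ∈ (fun a => y a n) '' P₁ := ⟨a, ha2, rfl⟩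
    rw [← hS.image_eq] at h6
    obtain ⟨a', ha', h7⟩ := h6
    apply ha1
    refine ⟨a', ha', ?_⟩
    have h8 := (hy a' (hSP ha')).1 n
    simp only at h7
    rw [h7] at h8
    exact h8
  obtain ⟨S₁, hS₁P, hS₁U, hS₁⟩ := hinj n
  obtain ⟨S₂, hS₂P, hS₂U, hS₂⟩ := hinj m
  refine rigidity U (S₁ ∩ S₂) (inter_mem hS₁U hS₂U) (fun a => y a n) (fun a => y a m)
    (hS₁.mono inter_subset_left) (hS₂.mono inter_subset_right) ?_ hVV
  intro a ha heq
  have h1 := (hy a (hS₁P ha.1)).2.injective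
  apply hnm
  apply h1
  simp only at heq ⊢
  rw [heq]


/-! ### Basic facts on balleans -/

section basic

variable {X : Type u} (𝓧 : Ballean X)

theorem Ballean.Bdd.subset {𝓧 : Ballean X} {B C : Set X} (h : 𝓧.Bdd B) (hC : C ⊆ B) : 𝓧.Bdd C := by
  obtain ⟨E, hE, x, hx⟩ := h
  exact ⟨E, hE, x, hC.trans hx⟩

theorem Ballean.Bdd.union {𝓧 : Ballean X} {B C : Set X} (h : 𝓧.Bdd B) (h' : 𝓧.Bdd C) :
    𝓧.Bdd (B ∪ C) := by
  obtain ⟨E, hE, x, hx⟩ := h
  obtain ⟨E', hE', x', hx'⟩ := h'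
  obtain ⟨G, hG, hxx⟩ := 𝓧.connected x x'
  refine ⟨_, 𝓧.union_mem E hE _ (𝓧.comp_mem G hG E' hE'), x, ?_⟩
  rintro z (hz | hz)
  · exact Or.inl (hx hz)
  · exact Or.inr ⟨x', hxx, hx' hz⟩

theorem Ballean.bdd_pair (x y : X) : ∃ E ∈ 𝓧.ent, x ∈ ball E x ∧ y ∈ ball E x := by
  obtain ⟨G, hG, hxx⟩ := 𝓧.connected x y
  exact ⟨_, 𝓧.union_mem _ 𝓧.diag_mem _ hG, Or.inl rfl, Or.inr hxx⟩

/-- a convenient form of slow oscillation -/
theorem Ballean.slowlyOsc_iff (f : X → ℝ) : 𝓧.SlowlyOsc f ↔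
    ∀ E ∈ 𝓧.ent, ∀ ε : ℝ, 0 < ε → ∃ B : Set X, 𝓧.Bdd B ∧
      ∀ x, x ∉ B → ∀ y ∈ ball E x, |f x - f y| ≤ ε := by
  constructor
  · intro h E hE ε hε
    obtain ⟨B, hB, hB'⟩ := h _ (𝓧.union_mem _ 𝓧.diag_mem _ hE) ε hε
    refine ⟨B, hB, fun x hx y hy => ?_⟩
    have h1 := hB' x hx
    have h2 : edist (f x) (f y) ≤
        Metric.ediam (f '' ball ({p : X × X | p.1 = p.2} ∪ E) x) :=
      Metric.edist_le_ediam_of_mem ⟨x, Or.inl rfl, rfl⟩ ⟨y, Or.inr hy, rfl⟩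
    have h3 := h2.trans h1.le
    rw [edist_dist, ENNReal.ofReal_le_ofReal_iff hε.le] at h3
    exact h3
  · intro h E hE ε hε
    obtain ⟨B, hB, hB'⟩ := h E hE (ε / 3) (by positivity)
    refine ⟨B, hB, fun x hx => ?_⟩
    have h1 : Metric.ediam (f '' ball E x) ≤ ENNReal.ofReal (2 * (ε / 3)) := by
      apply Metric.ediam_le
      rintro _ ⟨y, hy, rfl⟩ _ ⟨z, hz, rfl⟩
      rw [edist_dist]
      apply ENNReal.ofReal_le_ofReal
      have h2 := hB' x hx y hy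
      have h3 := hB' x hx z hz
      rw [Real.dist_eq]
      rw [abs_le] at *
      constructor <;> linarith [h2.1, h2.2, h3.1, h3.2]
    refine h1.trans_lt ?_
    rw [ENNReal.ofReal_lt_ofReal_iff hε]
    linarith

end basic

/-! ### The main argument -/

section main

variable {X : Type u} {Y : Type v}

theorem Ballean.bdd_empty (𝓧 : Ballean X) [hX : Nonempty X] : 𝓧.Bdd ∅ :=
  ⟨_, 𝓧.diag_mem, hX.some, empty_subset _⟩

/-- the filter of complements of bounded sets -/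
def Ballean.atInf (𝓧 : Ballean X) [Nonempty X] : Filter X where
  sets := {S | 𝓧.Bdd Sᶜ}
  univ_sets := by
    change 𝓧.Bdd univᶜ
    rw [compl_univ]; exact 𝓧.bdd_empty
  sets_of_superset := fun h hst => Ballean.Bdd.subset h (compl_subset_compl.2 hst)
  inter_sets := fun {s t} h h' => by
    change 𝓧.Bdd (s ∩ t)ᶜ
    rw [compl_inter]
    exact Ballean.Bdd.union h h'

theorem Ballean.mem_atInf (𝓧 : Ballean X) [Nonempty X] {S : Set X} :
    S ∈ 𝓧.atInf ↔ 𝓧.Bdd Sᶜ := Iff.rfl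

/-- points at finite distance -/
def fsetoid (f : X → Y → ℝ) : Setoid X where
  r x x' := ∃ n : ℕ, ∀ y, |f x y - f x' y| ≤ n
  iseqv :=
    { refl := fun x => ⟨0, fun y => by simp⟩
      symm := by
        rintro x x' ⟨n, hn⟩
        exact ⟨n, fun y => by rw [abs_sub_comm]; exact hn y⟩
      trans := by
        rintro x x' x'' ⟨n, hn⟩ ⟨m, hm⟩
        refine ⟨n + m, fun y => ?_⟩
        push_cast
        exact (abs_sub_le _ _ _).trans (add_le_add (hn y) (hm y)) }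

/-- the one-sided conditions -/
structure Half (𝓧 : Ballean X) (𝓨 : Ballean Y) (f : X → Y → ℝ) : Prop where
  nonneg : ∀ x y, 0 ≤ f x y
  P1 : ∀ C, 𝓨.Bdd C → ∃ B, 𝓧.Bdd B ∧ ∀ x, x ∉ B → ∀ y ∈ C, f x y = 0
  Q1 : ∀ E ∈ 𝓧.ent, ∀ ε : ℝ, 0 < ε → ∃ B, 𝓧.Bdd B ∧
    ∀ x, x ∉ B → ∀ x' ∈ ball E x, ∀ y, |f x y - f x' y| ≤ ε

theorem Half.quot {𝓧 : Ballean X} {𝓨 : Ballean Y} {f : X → Y → ℝ} (h : Half 𝓧 𝓨 f)
    [Nonempty X] (hX : 𝓧.SoBounded) :
    FBdd (map (Quotient.mk (fsetoid f)) 𝓧.atInf) := by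
  intro G
  obtain ⟨B, hB, M, hM⟩ := hX (fun x => (G (Quotient.mk (fsetoid f) x) : ℝ)) (by
    rw [Ballean.slowlyOsc_iff]
    intro E hE ε hε
    obtain ⟨B, hB, hB'⟩ := h.Q1 E hE 1 one_pos
    refine ⟨B, hB, fun x hx x' hx' => ?_⟩
    have h1 : Quotient.mk (fsetoid f) x = Quotient.mk (fsetoid f) x' := by
      apply Quotient.sound
      exact ⟨1, fun y => by simpa using hB' x hx x' hx' y⟩
    rw [h1]; simpa using hε.le)
  refine ⟨⌈M⌉₊, ?_⟩
  rw [eventually_map]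
  change 𝓧.Bdd _
  refine hB.subset ?_
  intro x hx
  by_contra hxB
  apply hx
  have h1 := hM x hxB
  have h2 : (G (Quotient.mk (fsetoid f) x) : ℝ) ≤ M := (le_abs_self _).trans h1
  exact_mod_cast h2.trans (Nat.le_ceil M)

theorem Half.rep {𝓧 : Ballean X} {𝓨 : Ballean Y} {f : X → Y → ℝ} (h : Half 𝓧 𝓨 f)
    [Nonempty Y] (hX : 𝓧.SoBounded) :
    ∃ k : ℕ, ∃ B, 𝓧.Bdd B ∧ ∀ x, x ∉ B → ∀ y,
      |f x y - f (Quotient.out (Quotient.mk (fsetoid f) x)) y| ≤ k := by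
  let r : X → X := fun x => Quotient.out (Quotient.mk (fsetoid f) x)
  have hr : ∀ x, ∃ n : ℕ, ∀ y, |f x y - f (r x) y| ≤ n := by
    intro x
    have : (fsetoid f) x (r x) := (fsetoid f).symm (Quotient.mk_out (s := fsetoid f) x)
    exact this
  have hbdd : ∀ x, BddAbove (range fun y => |f x y - f (r x) y|) := by
    intro x
    obtain ⟨n, hn⟩ := hr x
    exact ⟨n, by rintro _ ⟨y, rfl⟩; exact hn y⟩
  obtain ⟨B, hB, M, hM⟩ := hX (fun x => ⨆ y, |f x y - f (r x) y|) (by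
    rw [Ballean.slowlyOsc_iff]
    intro E hE ε hε
    obtain ⟨B1, hB1, hB1'⟩ := h.Q1 E hE 1 one_pos
    obtain ⟨B2, hB2, hB2'⟩ := h.Q1 E hE ε hε
    refine ⟨B1 ∪ B2, hB1.union hB2, fun x hx x' hx' => ?_⟩
    have hx1 : x ∉ B1 := fun h => hx (Or.inl h)
    have hx2 : x ∉ B2 := fun h => hx (Or.inr h)
    have h1 : r x = r x' := by
      have : Quotient.mk (fsetoid f) x = Quotient.mk (fsetoid f) x' := by
        apply Quotient.sound
        exact ⟨1, fun y => by simpa using hB1' x hx1 x' hx' y⟩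
      simp only [r, this]
    have h2 := hB2' x hx2 x' hx'
    rw [abs_le]
    constructor
    · have : (⨆ y, |f x' y - f (r x') y|) ≤ (⨆ y, |f x y - f (r x) y|) + ε := by
        apply ciSup_le
        intro y
        have h3 := le_ciSup (hbdd x) y
        have h4 := abs_sub_le (f x' y) (f x y) (f (r x) y)
        have h5 := h2 y
        rw [abs_sub_comm] at h5
        rw [← h1]
        linarith
      linarith
    · have : (⨆ y, |f x y - f (r x) y|) ≤ (⨆ y, |f x' y - f (r x') y|) + ε := by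
        apply ciSup_le
        intro y
        have h3 := le_ciSup (hbdd x') y
        have h4 := abs_sub_le (f x y) (f x' y) (f (r x') y)
        have h5 := h2 y
        rw [h1]
        linarith
      linarith)
  refine ⟨⌈M⌉₊, B, hB, fun x hx y => ?_⟩
  have h1 := (le_abs_self _).trans (hM x hx)
  exact ((le_ciSup (hbdd x) y).trans h1).trans (Nat.le_ceil M)

theorem main_bound {𝓧 : Ballean X} {𝓨 : Ballean Y} (hX : 𝓧.SoBounded) (hY : 𝓨.SoBounded)
    {f : X → Y → ℝ} (h : Half 𝓧 𝓨 f) (h' : Half 𝓨 𝓧 (fun y x => f x y)) [Nonempty X]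
    [Nonempty Y] :
    ∃ B, 𝓧.Bdd B ∧ ∃ C, 𝓨.Bdd C ∧ ∃ M : ℝ, ∀ x y, (x ∉ B ∨ y ∉ C) → f x y ≤ M := by
  obtain ⟨k1, B1, hB1, hk1⟩ := h.rep hX
  obtain ⟨k2, C1, hC1, hk2⟩ := h'.rep hY
  have hF := h.quot hX
  have hF' := h'.quot hY
  let qX : X → Quotient (fsetoid f) := Quotient.mk (fsetoid f)
  let qY : Y → Quotient (fsetoid fun y x => f x y) := Quotient.mk (fsetoid fun y x => f x y)
  let g : Quotient (fsetoid f) → Quotient (fsetoid fun y x => f x y) → ℕ :=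
    fun a b => ⌊f a.out b.out - (k1 + k2)⌋₊
  have hg : ∀ a b, 0 < g a b → (k1 : ℝ) + k2 < f a.out b.out := by
    intro a b hab
    have h1 : (1 : ℕ) ≤ g a b := hab
    have h2 : (1 : ℝ) ≤ f a.out b.out - (k1 + k2) := by
      by_contra hlt
      push Not at hlt
      have : g a b < 1 := Nat.floor_lt' (by norm_num) |>.2 (by simpa using hlt)
      omega
    linarith
  have hcore := core _ _ hF hF' g (by
    intro S hS
    have hS' : 𝓧.Bdd (qX ⁻¹' S) := by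
      have : 𝓧.Bdd (qX ⁻¹' Sᶜ)ᶜ := hS
      rwa [preimage_compl, compl_compl] at this
    obtain ⟨C2, hC2, hC2'⟩ := h'.P1 _ hS'
    change 𝓨.Bdd _
    refine (hC1.union hC2).subset ?_
    intro y hy
    rw [mem_compl_iff, mem_preimage, mem_compl_iff, not_not] at hy
    obtain ⟨a, haS, ha⟩ := hy
    by_contra hno
    have hy1 : y ∉ C1 := fun h => hno (Or.inl h)
    have hy2 : y ∉ C2 := fun h => hno (Or.inr h)
    have h1 := hk2 y hy1 a.out
    have h2 := hg _ _ ha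
    have h3 : f a.out y = 0 := hC2' y hy2 a.out (by
      change qX a.out ∈ S
      simp only [qX, Quotient.out_eq]; exact haS)
    rw [h3] at h1
    have h4 := (abs_le.1 h1).1
    have h5 : (0 : ℝ) ≤ k1 := Nat.cast_nonneg _
    have h6 : (0 : ℝ) ≤ k2 := Nat.cast_nonneg _
    linarith) (by
    intro T hT
    have hT' : 𝓨.Bdd (qY ⁻¹' T) := by
      have : 𝓨.Bdd (qY ⁻¹' Tᶜ)ᶜ := hT
      rwa [preimage_compl, compl_compl] at this
    obtain ⟨B2, hB2, hB2'⟩ := h.P1 _ hT'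
    change 𝓧.Bdd _
    refine (hB1.union hB2).subset ?_
    intro x hx
    rw [mem_compl_iff, mem_preimage, mem_compl_iff, not_not] at hx
    obtain ⟨b, hbT, hb⟩ := hx
    by_contra hno
    have hx1 : x ∉ B1 := fun h => hno (Or.inl h)
    have hx2 : x ∉ B2 := fun h => hno (Or.inr h)
    have h1 := hk1 x hx1 b.out
    have h2 := hg _ _ hb
    have h3 : f x b.out = 0 := hB2' x hx2 b.out (by
      change qY b.out ∈ T
      simp only [qY, Quotient.out_eq]; exact hbT)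
    rw [h3] at h1
    have h4 := (abs_le.1 h1).1
    have h5 : (0 : ℝ) ≤ k1 := Nat.cast_nonneg _
    have h6 : (0 : ℝ) ≤ k2 := Nat.cast_nonneg _
    linarith)
  obtain ⟨n, hn⟩ := hcore
  rw [eventually_map] at hn
  have hB2 : 𝓧.Bdd {x | ∀ b, g (qX x) b ≤ n}ᶜ := hn
  obtain ⟨B3, hB3, hB3'⟩ := h.P1 C1 hC1
  obtain ⟨C2, hC2, hC2'⟩ := h'.P1 _ ((hB1.union hB2).union hB3)
  have hk1' : (0 : ℝ) ≤ k1 := Nat.cast_nonneg _
  have hk2' : (0 : ℝ) ≤ k2 := Nat.cast_nonneg _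
  have hn' : (0 : ℝ) ≤ n := Nat.cast_nonneg _
  refine ⟨_, (hB1.union hB2).union hB3, C2, hC2, 2 * (k1 + k2) + n + 1, ?_⟩
  intro x y hxy
  by_cases hx : x ∈ (B1 ∪ {x | ∀ b, g (qX x) b ≤ n}ᶜ) ∪ B3
  · have hy : y ∉ C2 := by
      rcases hxy with h1 | h1
      · exact absurd hx h1
      · exact h1
    have h1 : f x y = 0 := hC2' y hy x hx
    rw [h1]
    positivity
  · have hx1 : x ∉ B1 := fun h => hx (Or.inl (Or.inl h))
    have hx2 : ∀ b, g (qX x) b ≤ n := by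
      by_contra h
      exact hx (Or.inl (Or.inr h))
    have hx3 : x ∉ B3 := fun h => hx (Or.inr h)
    by_cases hy : y ∈ C1
    · rw [hB3' x hx3 y hy]; positivity
    · have h1 := hk1 x hx1 y
      have h2 := hk2 y hy (Quotient.out (qX x))
      have h3 := hx2 (qY y)
      have h4 : f (Quotient.out (qX x)) (Quotient.out (qY y)) - (k1 + k2) < n + 1 := by
        have h5 := Nat.lt_floor_add_one (f (Quotient.out (qX x)) (Quotient.out (qY y)) - (k1 + k2))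
        have h6 : ((g (qX x) (qY y) : ℕ) : ℝ) ≤ n := by exact_mod_cast h3
        simp only [g] at h6
        linarith
      have h7 := (abs_le.1 h1).2
      have h8 := (abs_le.1 h2).2
      change f x y - f (Quotient.out (qX x)) y ≤ _ at h7
      change f (Quotient.out (qX x)) y - f (Quotient.out (qX x)) (Quotient.out (qY y)) ≤ _ at h8
      linarith

/-- one-sided consequences of slow oscillation on the product -/
theorem slice {𝓧 : Ballean X} {𝓨 : Ballean Y} {f : X × Y → ℝ} (hf : (𝓧.prod 𝓨).SlowlyOsc f) :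
    ∀ E ∈ 𝓧.ent, ∀ ε : ℝ, 0 < ε → ∃ B, 𝓧.Bdd B ∧
      ∀ x, x ∉ B → ∀ x' ∈ ball E x, ∀ y, |f (x, y) - f (x', y)| ≤ ε := by
  intro E hE ε hε
  rw [Ballean.slowlyOsc_iff] at hf
  obtain ⟨W, hW, hW'⟩ := hf (tensor E {p : Y × Y | p.1 = p.2})
    ⟨E, hE, _, 𝓨.diag_mem, Subset.rfl⟩ ε hε
  obtain ⟨V, ⟨E', hE', F', hF', hV⟩, ⟨x0, y0⟩, hWV⟩ := hW
  refine ⟨ball E' x0, ⟨E', hE', x0, Subset.rfl⟩, fun x hx x' hx' y => ?_⟩
  refine hW' (x, y) (fun hmem => hx ?_) (x', y) ⟨hx', rfl⟩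
  exact (hV (hWV hmem)).1

theorem slice' {𝓧 : Ballean X} {𝓨 : Ballean Y} {f : X × Y → ℝ} (hf : (𝓧.prod 𝓨).SlowlyOsc f) :
    ∀ F ∈ 𝓨.ent, ∀ ε : ℝ, 0 < ε → ∃ C, 𝓨.Bdd C ∧
      ∀ y, y ∉ C → ∀ y' ∈ ball F y, ∀ x, |f (x, y) - f (x, y')| ≤ ε := by
  intro F hF ε hε
  rw [Ballean.slowlyOsc_iff] at hf
  obtain ⟨W, hW, hW'⟩ := hf (tensor {p : X × X | p.1 = p.2} F)
    ⟨_, 𝓧.diag_mem, F, hF, Subset.rfl⟩ ε hε
  obtain ⟨V, ⟨E', hE', F', hF', hV⟩, ⟨x0, y0⟩, hWV⟩ := hW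
  refine ⟨ball F' y0, ⟨F', hF', y0, Subset.rfl⟩, fun y hy y' hy' x => ?_⟩
  refine hW' (x, y) (fun hmem => hy ?_) (x, y') ⟨rfl, hy'⟩
  exact (hV (hWV hmem)).2

/-- moving along a bounded set in the second coordinate, far out in the first one -/
theorem cross {𝓧 : Ballean X} {𝓨 : Ballean Y} {f : X × Y → ℝ} (hf : (𝓧.prod 𝓨).SlowlyOsc f)
    (y0 : Y) (C : Set Y) (hC : 𝓨.Bdd C) :
    ∃ B, 𝓧.Bdd B ∧ ∀ x, x ∉ B → ∀ y ∈ C, |f (x, y0) - f (x, y)| ≤ 1 := by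
  rw [Ballean.slowlyOsc_iff] at hf
  obtain ⟨F, hF, y1, hCF⟩ := hC
  obtain ⟨G, hG, hyy⟩ := 𝓨.connected y0 y1
  obtain ⟨W, hW, hW'⟩ := hf (tensor {p : X × X | p.1 = p.2}
    {p : Y × Y | ∃ z, (p.1, z) ∈ G ∧ (z, p.2) ∈ F})
    ⟨_, 𝓧.diag_mem, _, 𝓨.comp_mem G hG F hF, Subset.rfl⟩ 1 one_pos
  obtain ⟨V, ⟨E', hE', F', hF', hV⟩, ⟨x2, y2⟩, hWV⟩ := hW
  refine ⟨ball E' x2, ⟨E', hE', x2, Subset.rfl⟩, fun x hx y hy => ?_⟩
  refine hW' (x, y0) (fun hmem => hx ?_) (x, y) ⟨rfl, y1, hyy, hCF hy⟩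
  exact (hV (hWV hmem)).1

theorem cross' {𝓧 : Ballean X} {𝓨 : Ballean Y} {f : X × Y → ℝ} (hf : (𝓧.prod 𝓨).SlowlyOsc f)
    (x0 : X) (B : Set X) (hB : 𝓧.Bdd B) :
    ∃ C, 𝓨.Bdd C ∧ ∀ y, y ∉ C → ∀ x ∈ B, |f (x0, y) - f (x, y)| ≤ 1 := by
  rw [Ballean.slowlyOsc_iff] at hf
  obtain ⟨F, hF, y1, hCF⟩ := hB
  obtain ⟨G, hG, hyy⟩ := 𝓧.connected x0 y1
  obtain ⟨W, hW, hW'⟩ := hf (tensor
    {p : X × X | ∃ z, (p.1, z) ∈ G ∧ (z, p.2) ∈ F} {p : Y × Y | p.1 = p.2})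
    ⟨_, 𝓧.comp_mem G hG F hF, _, 𝓨.diag_mem, Subset.rfl⟩ 1 one_pos
  obtain ⟨V, ⟨E', hE', F', hF', hV⟩, ⟨x2, y2⟩, hWV⟩ := hW
  refine ⟨ball F' y2, ⟨F', hF', y2, Subset.rfl⟩, fun y hy x hx => ?_⟩
  refine hW' (x0, y) (fun hmem => hy ?_) (x, y) ⟨⟨y1, hyy, hCF hx⟩, rfl⟩
  exact (hV (hWV hmem)).2

end main

/-- **Answer to Q1 (positive).** The product of two so-bounded balleans is so-bounded. -/
theorem result {X : Type u} {Y : Type v} (𝓧 : Ballean X) (𝓨 : Ballean Y)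
    (hX : 𝓧.SoBounded) (hY : 𝓨.SoBounded) : (𝓧.prod 𝓨).SoBounded := by
  intro f0 hf0
  -- a point
  obtain ⟨W0, ⟨_, _, ⟨x0, y0⟩, _⟩, _⟩ := hf0 _ (𝓧.prod 𝓨).diag_mem 1 one_pos
  have : Nonempty X := ⟨x0⟩
  have : Nonempty Y := ⟨y0⟩
  -- bounds on two slices
  obtain ⟨B0, hB0, a, ha⟩ := hX (fun x => f0 (x, y0)) (by
    rw [Ballean.slowlyOsc_iff]
    intro E hE ε hε
    obtain ⟨B, hB, hB'⟩ := slice hf0 E hE ε hε
    exact ⟨B, hB, fun x hx x' hx' => hB' x hx x' hx' y0⟩)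
  obtain ⟨C0, hC0, b, hb⟩ := hY (fun y => f0 (x0, y)) (by
    rw [Ballean.slowlyOsc_iff]
    intro E hE ε hε
    obtain ⟨B, hB, hB'⟩ := slice' hf0 E hE ε hε
    exact ⟨B, hB, fun x hx x' hx' => hB' x hx x' hx' x0⟩)
  let c : ℝ := max a b + 1
  let f : X → Y → ℝ := fun x y => max (|f0 (x, y)| - c) 0
  have hlip : ∀ x y x' y', |f x y - f x' y'| ≤ |f0 (x, y) - f0 (x', y')| := by
    intro x y x' y'
    simp only [f]
    refine (abs_max_sub_max_le_abs _ _ _).trans ?_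
    have : |f0 (x, y)| - c - (|f0 (x', y')| - c) = |f0 (x, y)| - |f0 (x', y')| := by ring
    rw [this]
    exact abs_abs_sub_abs_le _ _
  have h : Half 𝓧 𝓨 f := by
    refine ⟨fun x y => le_max_right _ _, ?_, ?_⟩
    · intro C hC
      obtain ⟨B, hB, hB'⟩ := cross hf0 y0 C hC
      refine ⟨B ∪ B0, hB.union hB0, fun x hx y hy => ?_⟩
      have h1 := hB' x (fun h => hx (Or.inl h)) y hy
      have h2 := ha x (fun h => hx (Or.inr h))
      simp only [f]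
      apply max_eq_right
      have h3 := abs_sub_abs_le_abs_sub (f0 (x, y)) (f0 (x, y0))
      rw [abs_sub_comm] at h1
      have h4 : a ≤ max a b := le_max_left _ _
      simp only [c]
      linarith
    · intro E hE ε hε
      obtain ⟨B, hB, hB'⟩ := slice hf0 E hE ε hε
      exact ⟨B, hB, fun x hx x' hx' y => (hlip _ _ _ _).trans (hB' x hx x' hx' y)⟩
  have h' : Half 𝓨 𝓧 (fun y x => f x y) := by
    refine ⟨fun x y => le_max_right _ _, ?_, ?_⟩
    · intro C hC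
      obtain ⟨B, hB, hB'⟩ := cross' hf0 x0 C hC
      refine ⟨B ∪ C0, hB.union hC0, fun y hy x hx => ?_⟩
      have h1 := hB' y (fun h => hy (Or.inl h)) x hx
      have h2 := hb y (fun h => hy (Or.inr h))
      simp only [f]
      apply max_eq_right
      have h3 := abs_sub_abs_le_abs_sub (f0 (x, y)) (f0 (x0, y))
      rw [abs_sub_comm] at h1
      have h4 : b ≤ max a b := le_max_right _ _
      simp only [c]
      linarith
    · intro E hE ε hε
      obtain ⟨B, hB, hB'⟩ := slice' hf0 E hE ε hε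
      exact ⟨B, hB, fun x hx x' hx' y => (hlip _ _ _ _).trans (hB' x hx x' hx' y)⟩
  obtain ⟨B, ⟨E, hE, xB, hBE⟩, C, ⟨F, hF, yC, hCF⟩, M, hM⟩ := main_bound hX hY h h'
  refine ⟨B ×ˢ C, ⟨tensor E F, ⟨E, hE, F, hF, Subset.rfl⟩, (xB, yC), ?_⟩, c + M, ?_⟩
  · rintro ⟨x, y⟩ ⟨hx, hy⟩
    exact ⟨hBE hx, hCF hy⟩
  · rintro ⟨x, y⟩ hxy
    have h1 : x ∉ B ∨ y ∉ C := by
      by_contra hno
      push Not at hno
      exact hxy ⟨hno.1, hno.2⟩
    have h2 := hM x y h1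
    have h3 : |f0 (x, y)| - c ≤ f x y := le_max_left _ _
    linarith

end Pool.Agent.Results.MP_bddfa7_gt.SoBoundedProd
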